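import Pool.Agent.Lib.RTV.Cls
import Pool.Agent.Lib.RTV.Below

/-!
# MP_e9d911_an: the Rigler-Trimble-Varga formula, exact range of validity

For `0 < d < 1`, an integer `k ≥ 0` and `n = n(d,k)`, `ρ` as in the problem,
`C_{d,k} = log (ρ / (2^(n-1) (ρ+1)))` if `k = 0`, or `k = 1` and `d ≥ 3/4`; in all other cases
`C_{d,k}` is strictly smaller.
-/

namespace Pool.Agent.Results.MP_e9d911_an.FormulaExactRange

open Pool.Agent.RTV

theorem value_zero {d : ℝ} {n : ℕ} (hd1 : d < 1) (h : IsN d 0 n) :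
    rtvValue d 0 n = Real.log d := by
  obtain ⟨_, _, h3, h4⟩ := isN_facts hd1 h
  unfold rtvValue
  congr 1
  simp only [Nat.choose_zero_right, Nat.cast_one, Finset.range_one, Finset.sum_singleton,
    zero_add] at h4
  have h5 : (0 : ℝ) < rho d 0 n + 1 := by linarith
  rw [div_eq_iff (by positivity)]
  linear_combination -h4

theorem value_one {d : ℝ} (hd1 : d < 1) (h : IsN d 1 2) :
    rtvValue d 1 2 = Real.log (d - 1 / 2) := by
  obtain ⟨_, _, h3, h4⟩ := isN_facts hd1 h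
  unfold rtvValue
  congr 1
  norm_num [Finset.sum_range_succ] at h4
  have h5 : (0 : ℝ) < rho d 1 2 + 1 := by linarith
  rw [div_eq_iff (by positivity)]
  norm_num
  linear_combination -h4

theorem n_eq_two {d : ℝ} {n : ℕ} (hd1 : d < 1) (hd : 3 / 4 ≤ d) (h : IsN d 1 n) : n = 2 := by
  obtain ⟨hkn, _, _, _⟩ := isN_facts hd1 h
  by_contra hne
  have hn : 3 ≤ n := by omega
  obtain ⟨_, _, h2⟩ := h
  have h3 : ∀ m : ℕ, 2 ≤ m → 4 * ((m : ℝ) + 1) ≤ 3 * 2 ^ m := by
    intro m hm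
    induction m, hm using Nat.le_induction with
    | base => norm_num
    | succ m hm ih =>
      have h5 : (4 : ℝ) ≤ 2 ^ m := by
        calc (4 : ℝ) = 2 ^ 2 := by norm_num
          _ ≤ 2 ^ m := pow_le_pow_right₀ (by norm_num) hm
      rw [pow_succ]
      push_cast
      linarith
  obtain ⟨m, rfl⟩ : ∃ m, n = m + 1 := ⟨n - 1, by omega⟩
  rw [Nat.add_sub_cancel] at h2
  have h4 := h3 m (by omega)
  have h5 : (0 : ℝ) < 2 ^ m := by positivity
  rw [lt_div_iff₀ h5] at h2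
  simp only [Finset.sum_range_succ, Finset.range_one, Finset.sum_singleton,
    Nat.choose_zero_right, Nat.choose_one_right, Nat.cast_one] at h2
  nlinarith

theorem n_ge_three {d : ℝ} {k n : ℕ} (hd1 : d < 1) (h : IsN d k n) (hk : k ≠ 0)
    (hk1 : k = 1 → d < 3 / 4) : 3 ≤ n := by
  obtain ⟨hkn, _, _, _⟩ := isN_facts hd1 h
  by_contra hn
  have hk' : k = 1 := by omega
  have hn' : n = 2 := by omega
  subst hk'
  subst hn'
  have h1 := h.2.1
  norm_num [Finset.sum_range_succ] at h1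
  have := hk1 rfl
  linarith

/-- Let `0 < d < 1`, `k ≥ 0`, and let `n = n(d,k)`, `ρ = ρ(d,k)` be the numbers of the problem.
If `k = 0`, or `k = 1` and `d ≥ 3/4`, then `C_{d,k} = log (ρ / (2^(n-1) (ρ+1)))`;
in all other cases `C_{d,k} < log (ρ / (2^(n-1) (ρ+1)))`. -/
theorem result (d : ℝ) (k n : ℕ) (hd : 0 < d) (hd1 : d < 1) (h : IsN d k n) :
    ((k = 0 ∨ (k = 1 ∧ 3 / 4 ≤ d)) →
      Cinf d k = ((Real.log (rho d k n / (2 ^ (n - 1) * (rho d k n + 1))) : ℝ) : EReal)) ∧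
    (¬ (k = 0 ∨ (k = 1 ∧ 3 / 4 ≤ d)) →
      Cinf d k < ((Real.log (rho d k n / (2 ^ (n - 1) * (rho d k n + 1))) : ℝ) : EReal)) := by
  have hv : Real.log (rho d k n / (2 ^ (n - 1) * (rho d k n + 1))) = rtvValue d k n := rfl
  rw [hv]
  refine ⟨?_, ?_⟩
  · rintro (hk | ⟨hk, hd2⟩)
    · subst hk
      refine le_antisymm (Cinf_le hd1 h) (le_iInf₂ fun f hf => ?_)
      rw [value_zero hd1 h]
      exact EReal.coe_le_coe_iff.2 (J_ge_zero hd hf)
    · subst hk
      have hn := n_eq_two hd1 hd2 h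
      subst hn
      refine le_antisymm (Cinf_le hd1 h) (le_iInf₂ fun f hf => ?_)
      rw [value_one hd1 h]
      exact EReal.coe_le_coe_iff.2 (J_ge_one (by linarith) hf)
  · intro hcon
    push Not at hcon
    have hn := n_ge_three hd1 h hcon.1 hcon.2
    obtain ⟨f, hf, hJ⟩ := exists_below hd hd1 h (Nat.one_le_iff_ne_zero.2 hcon.1) hn
    exact (iInf₂_le f hf).trans_lt (EReal.coe_lt_coe_iff.2 hJ)

end Pool.Agent.Results.MP_e9d911_an.FormulaExactRange
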